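import Mathlib
import Pool.Agent.Results.MP_771c73_an.NoDenseSum

/-!
Bounded extensions `f_n` of functionals `φ_n` on a closed subspace `G` with `G + [f_n]_⊥` dense:
they exist, with the bound `lam`, for all sequences in the unit ball of the dual of `G` if and only
if `G` is the range of a projection of norm at most `lam`; one norming sequence decides.
-/

set_option autoImplicit false

open Filter Topology

namespace Pool.Agent.Results.MP_771c73_an.ComplementationConstant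

open Pool.Agent.Results.MP_771c73_an.NoDenseSum

universe u

section

variable {𝕜 : Type} [RCLike 𝕜] {E : Type u} [NormedAddCommGroup E] [NormedSpace 𝕜 E]

/-- There are extensions `f n` of the functionals `φ n` to `E`, all of norm at most `lam`, such that
`G + [f_n]_⊥` is dense in `E`. -/
def HasDenseExtension (G : Submodule 𝕜 E) (φ : ℕ → (G →L[𝕜] 𝕜)) (lam : ℝ) : Prop :=
  ∃ f : ℕ → (E →L[𝕜] 𝕜), (∀ (n : ℕ) (g : G), f n g = φ n g) ∧ (∀ n, ‖f n‖ ≤ lam) ∧
    Dense {x : E | ∃ g ∈ G, ∃ y : E, (∀ n, f n y = 0) ∧ x = g + y}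

/-- There is a projection of `E` onto `G` of norm at most `lam`. -/
def HasProjection (G : Submodule 𝕜 E) (lam : ℝ) : Prop :=
  ∃ P : E →L[𝕜] G, (∀ g : G, P g = g) ∧ ‖P‖ ≤ lam

/-- The sequence `φ` in the dual of `G` is norming: `‖g‖ ≤ sup_n |φ_n(g)|` for all `g`. -/
def Norming (G : Submodule 𝕜 E) (φ : ℕ → (G →L[𝕜] 𝕜)) : Prop :=
  ∀ (g : G) (M : ℝ), (∀ n, ‖φ n g‖ ≤ M) → ‖g‖ ≤ M

theorem ext_of_proj {G : Submodule 𝕜 E} {lam C : ℝ} (hC : 0 ≤ C) (h : HasProjection G lam)
    (φ : ℕ → (G →L[𝕜] 𝕜)) (hφ : ∀ n, ‖φ n‖ ≤ C) : HasDenseExtension G φ (C * lam) := by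
  obtain ⟨P, hP, hPn⟩ := h
  refine ⟨fun n => (φ n).comp P, ?_, ?_, ?_⟩
  · intro n g
    simp [hP]
  · intro n
    refine ((φ n).opNorm_comp_le P).trans ?_
    exact mul_le_mul (hφ n) hPn (norm_nonneg _) hC
  · have : {x : E | ∃ g ∈ G, ∃ y : E, (∀ n, (φ n).comp P y = 0) ∧ x = g + y} = Set.univ := by
      ext x
      simp only [Set.mem_ofPred_eq, Set.mem_univ, iff_true]
      refine ⟨(P x : E), (P x).2, x - (P x : E), fun n => ?_, by abel⟩
      rw [ContinuousLinearMap.comp_apply, map_sub, hP, sub_self, map_zero]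
    rw [this]
    exact dense_univ

theorem proj_of_ext [CompleteSpace E] {G : Submodule 𝕜 E} (hG : IsClosed (G : Set E)) {lam : ℝ}
    (φ : ℕ → (G →L[𝕜] 𝕜)) (hφ : Norming G φ) (h : HasDenseExtension G φ lam) :
    HasProjection G lam := by
  obtain ⟨f, hf, hC, hdense⟩ := h
  have hC0 : 0 ≤ lam := (norm_nonneg _).trans (hC 0)
  have hnorm : ∀ g ∈ G, ∀ y : E, (∀ n, f n y = 0) → ‖g‖ ≤ lam * ‖g + y‖ := by
    intro g hg y hy
    refine hφ ⟨g, hg⟩ (lam * ‖g + y‖) (fun n => ?_)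
    rw [← hf n ⟨g, hg⟩]
    calc ‖f n g‖ = ‖f n (g + y)‖ := by rw [map_add, hy n, add_zero]
      _ ≤ lam * ‖g + y‖ := (f n).le_of_opNorm_le (hC n) _
  have hex : ∀ x : E, ∃ g : G, (∀ k, f k (x - (g : E)) = 0) := by
    intro x
    obtain ⟨u, hu1, hu2⟩ := mem_closure_iff_seq_limit.1 (hdense x)
    choose g hg y hy hgy using hu1
    have hcau : CauchySeq g := by
      rw [Metric.cauchySeq_iff]
      intro ε hε
      obtain ⟨N, hN⟩ := Metric.cauchySeq_iff.1 hu2.cauchySeq (ε / (lam + 1)) (by positivity)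
      refine ⟨N, fun m hm n hn => ?_⟩
      have h1 := hN m hm n hn
      rw [dist_eq_norm] at h1 ⊢
      have h2 := hnorm (g m - g n) (G.sub_mem (hg m) (hg n)) (y m - y n)
        (fun k => by rw [map_sub, hy m k, hy n k, sub_zero])
      have h3 : g m - g n + (y m - y n) = u m - u n := by
        rw [hgy m, hgy n]; abel
      rw [h3] at h2
      rw [lt_div_iff₀ (by positivity)] at h1
      nlinarith [norm_nonneg (u m - u n)]
    obtain ⟨g₀, hg₀⟩ := cauchySeq_tendsto_of_complete hcau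
    have hg₀G : g₀ ∈ G := hG.mem_of_tendsto hg₀ (Eventually.of_forall hg)
    have hy₀ : Tendsto y atTop (𝓝 (x - g₀)) := by
      have : y = fun n => u n - g n := by
        funext n
        rw [hgy n]; abel
      rw [this]
      exact hu2.sub hg₀
    refine ⟨⟨g₀, hg₀G⟩, ?_⟩
    intro k
    have h1 : Tendsto (fun n => f k (y n)) atTop (𝓝 (f k (x - g₀))) :=
      ((f k).continuous.tendsto _).comp hy₀
    have h2 : (fun n => f k (y n)) = fun _ => 0 := funext (fun n => hy n k)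
    rw [h2] at h1
    exact (tendsto_nhds_unique h1 tendsto_const_nhds)
  choose γ hγ using hex
  have huniq : ∀ g g' : G, (∀ k, f k ((g : E) - (g' : E)) = 0) → g = g' := by
    intro g g' h
    have h1 := hnorm ((g : E) - g') (G.sub_mem g.2 g'.2) (-((g : E) - g'))
      (fun n => by rw [map_neg, h n, neg_zero])
    rw [add_neg_cancel, norm_zero, mul_zero] at h1
    exact Subtype.ext (sub_eq_zero.1 (norm_le_zero_iff.1 h1))
  let P₀ : E →ₗ[𝕜] G :=
    { toFun := γ
      map_add' := by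
        intro x y
        apply huniq
        intro k
        have e : (γ (x + y) : E) - ((γ x + γ y : G) : E)
            = (x - γ x) + (y - γ y) - ((x + y) - γ (x + y)) := by
          push_cast; abel
        rw [e, map_sub, map_add, hγ, hγ, hγ, add_zero, sub_zero]
      map_smul' := by
        intro c x
        apply huniq
        intro k
        have e : (γ (c • x) : E) - ((c • γ x : G) : E)
            = c • (x - γ x) - ((c • x) - γ (c • x)) := by
          rw [smul_sub]; push_cast; abel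
        change f k ((γ (c • x) : E) - ((c • γ x : G) : E)) = 0
        rw [e, map_sub, map_smul, hγ, hγ, smul_zero, sub_zero] }
  refine ⟨P₀.mkContinuous lam ?_, ?_, LinearMap.mkContinuous_norm_le _ hC0 _⟩
  · intro x
    have h1 := hnorm (γ x : E) (γ x).2 (x - γ x) (hγ x)
    rw [add_sub_cancel] at h1
    exact h1
  · intro g
    change γ (g : E) = g
    apply huniq
    intro k
    have h1 := hγ (g : E) k
    have e : (γ (g : E) : E) - (g : E) = -((g : E) - γ (g : E)) := by abel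
    rw [e, map_neg, h1, neg_zero]

/-- The dual of a separable subspace contains a norming sequence in its unit ball. -/
theorem norming_exists (G : Submodule 𝕜 E) (hsep : TopologicalSpace.SeparableSpace G) :
    ∃ φ : ℕ → (G →L[𝕜] 𝕜), (∀ n, ‖φ n‖ ≤ 1) ∧ Norming G φ := by
  obtain ⟨u, hu⟩ := TopologicalSpace.exists_dense_seq G
  choose φ hφ1 hφ2 using fun n => exists_dual_vector'' 𝕜 (u n)
  refine ⟨φ, hφ1, fun g M hM => ?_⟩
  refine le_of_forall_pos_le_add (fun ε hε => ?_)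
  obtain ⟨n, hn⟩ := hu.exists_dist_lt g (half_pos hε)
  rw [dist_eq_norm] at hn
  have h1 : ‖u n‖ ≤ ‖φ n g‖ + ‖g - u n‖ := by
    calc ‖u n‖ = ‖φ n (u n)‖ := by rw [hφ2 n]; simp
      _ = ‖φ n g - φ n (g - u n)‖ := by rw [← map_sub]; congr 2; abel
      _ ≤ ‖φ n g‖ + ‖φ n (g - u n)‖ := norm_sub_le _ _
      _ ≤ ‖φ n g‖ + ‖g - u n‖ := by
        have := (φ n).le_of_opNorm_le (hφ1 n) (g - u n)
        rw [one_mul] at this
        linarith
  have h2 : ‖g‖ ≤ ‖u n‖ + ‖g - u n‖ := by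
    calc ‖g‖ = ‖u n + (g - u n)‖ := by congr 1; abel
      _ ≤ _ := norm_add_le _ _
  linarith [hM n]

end

/-- **Main theorem.** -/
theorem result (𝕜 : Type) [RCLike 𝕜] :
    -- the sharp constant
    (∀ (E : Type u) [NormedAddCommGroup E] [NormedSpace 𝕜 E] [CompleteSpace E]
      (G : Submodule 𝕜 E), IsClosed (G : Set E) → TopologicalSpace.SeparableSpace G →
      ∀ lam : ℝ,
        [HasProjection G lam,
          ∀ φ : ℕ → (G →L[𝕜] 𝕜), (∀ n, ‖φ n‖ ≤ 1) → HasDenseExtension G φ lam,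
          ∃ φ : ℕ → (G →L[𝕜] 𝕜), (∀ n, ‖φ n‖ ≤ 1) ∧ Norming G φ ∧
            HasDenseExtension G φ lam].TFAE) ∧
    -- the subspaces with a positive answer for all bounded sequences
    (∀ (E : Type u) [NormedAddCommGroup E] [NormedSpace 𝕜 E] [CompleteSpace E]
      (G : Submodule 𝕜 E), IsClosed (G : Set E) → TopologicalSpace.SeparableSpace G →
      ((∀ φ : ℕ → (G →L[𝕜] 𝕜), (∃ C : ℝ, ∀ n, ‖φ n‖ ≤ C) → ∃ lam, HasDenseExtension G φ lam) ↔
        G.ClosedComplemented)) ∧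
    -- the negative answer to the question
    (∃ (E : Type) (_ : NormedAddCommGroup E) (_ : NormedSpace 𝕜 E) (_ : CompleteSpace E)
      (_ : TopologicalSpace.SeparableSpace E) (G : Submodule 𝕜 E) (φ : ℕ → (G →L[𝕜] 𝕜)),
      IsClosed (G : Set E) ∧ (∃ C : ℝ, ∀ n, ‖φ n‖ ≤ C) ∧ ¬ ∃ lam, HasDenseExtension G φ lam) := by
  refine ⟨?_, ?_, ?_⟩
  · intro E _ _ _ G hG hsep lam
    tfae_have 1 → 2 := by
      intro h φ hφ
      have := ext_of_proj zero_le_one h φ hφ
      rwa [one_mul] at this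
    tfae_have 2 → 3 := by
      intro h
      obtain ⟨φ, h1, h2⟩ := norming_exists (𝕜 := 𝕜) G hsep
      exact ⟨φ, h1, h2, h φ h1⟩
    tfae_have 3 → 1 := by
      rintro ⟨φ, -, h2, h3⟩
      exact proj_of_ext hG φ h2 h3
    tfae_finish
  · intro E _ _ _ G hG hsep
    constructor
    · intro h
      obtain ⟨φ, h1, h2⟩ := norming_exists (𝕜 := 𝕜) G hsep
      obtain ⟨lam, h3⟩ := h φ ⟨1, h1⟩
      obtain ⟨P, hP, -⟩ := proj_of_ext hG φ h2 h3
      exact ⟨P, hP⟩
    · rintro ⟨P, hP⟩ φ ⟨C, hC⟩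
      have hC0 : 0 ≤ C := (norm_nonneg _).trans (hC 0)
      exact ⟨C * ‖P‖, ext_of_proj hC0 ⟨P, hP, le_rfl⟩ φ hC⟩
  · obtain ⟨E, i1, i2, i3, i4, G, φ, h1, h2, h3⟩ := NoDenseSum.result 𝕜
    refine ⟨E, i1, i2, i3, i4, G, φ, h1, h2, ?_⟩
    rintro ⟨lam, f, hf, hl, hd⟩
    exact h3 f hf ⟨lam, hl⟩ hd

end Pool.Agent.Results.MP_771c73_an.ComplementationConstant
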